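import Pool.Agent.Lib.MP_849b2e_co.Final

open Pool.Agent.Lib.MP_849b2e_co

/-- The complete classification of the pairs `(A, B)` of finite graphs for which the class of
`(A, B)`-free graphs has bounded linear clique-width. -/
theorem Pool.Agent.Results.MP_849b2e_co.Dichotomy.result
    {α β : Type} [Fintype α] [Fintype β] (A : SimpleGraph α) (B : SimpleGraph β) :
    BoundedLcw A B ↔ Good A B ∨ Good B A ∨ Good Aᶜ Bᶜ ∨ Good Bᶜ Aᶜ :=
  dichotomy A B
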